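import Pool.Agent.Lib_helper88.OPS.SpecU
import Pool.Agent.Lib_helper19.QS.Trp

/-!
# MP_859019, one pure state: the contour formula when zero eigenvalues are allowed
-/

set_option autoImplicit false
set_option linter.unusedSectionVars false

open scoped BigOperators ComplexOrder Kronecker MatrixOrder Topology Real
open MeasureTheory Set Matrix Filter

namespace Pool.Agent.Lib_helper88.OPS

open Pool.Agent.RC Pool.Agent.OPS

variable {m ι : Type} [Fintype m] [DecidableEq m] [Fintype ι] [DecidableEq ι]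

lemma re_pos_of_mem {c ρ : ℝ} (hρc : ρ < c) {z : ℂ}
    (hz : z ∈ Metric.closedBall (c : ℂ) ρ) : 0 < z.re := by
  rw [Metric.mem_closedBall, dist_eq_norm] at hz
  have h1 : |(z - (c : ℂ)).re| ≤ ‖z - (c : ℂ)‖ := Complex.abs_re_le_norm _
  have h2 : (z - (c : ℂ)).re = z.re - c := by simp
  rw [h2] at h1
  have := neg_abs_le (z.re - c)
  linarith

lemma ne_zero_of_mem {c ρ : ℝ} (hρc : ρ < c) {z : ℂ}
    (hz : z ∈ Metric.closedBall (c : ℂ) ρ) : z ≠ 0 := by
  intro h
  have := re_pos_of_mem hρc hz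
  rw [h] at this
  simp at this

lemma cauchy_zero {p c ρ : ℝ} (hp : p ≠ 0) (hρ : 0 < ρ) (hρc : ρ < c) :
    CircleIntegrable (fun z : ℂ => z ^ (p : ℂ) * (z - ((0 : ℝ) : ℂ))⁻¹) (c : ℂ) ρ ∧
    (((0 : ℝ) ^ p : ℝ) : ℂ) =
      (2 * π * Complex.I : ℂ)⁻¹ * ∮ z in C((c : ℂ), ρ), z ^ (p : ℂ) * (z - ((0 : ℝ) : ℂ))⁻¹ := by
  have hd : ∀ z : ℂ, z ∈ Metric.closedBall (c : ℂ) ρ →
      DifferentiableAt ℂ (fun z : ℂ => z ^ (p : ℂ) * (z - ((0 : ℝ) : ℂ))⁻¹) z := by
    intro z hz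
    refine ((differentiableAt_id).cpow_const (Or.inl (re_pos_of_mem hρc hz))).mul ?_
    refine DifferentiableAt.inv (by fun_prop) ?_
    rw [Complex.ofReal_zero, sub_zero]
    exact ne_zero_of_mem hρc hz
  have hcont : ContinuousOn (fun z : ℂ => z ^ (p : ℂ) * (z - ((0 : ℝ) : ℂ))⁻¹)
      (Metric.closedBall (c : ℂ) ρ) :=
    fun z hz => (hd z hz).continuousAt.continuousWithinAt
  constructor
  · exact ContinuousOn.circleIntegrable hρ.le (hcont.mono Metric.sphere_subset_closedBall)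
  · have h := Complex.circleIntegral_eq_zero_of_differentiable_on_off_countable hρ.le
      Set.countable_empty hcont
      (fun z hz => hd z (Metric.ball_subset_closedBall hz.1))
    rw [h, mul_zero, Real.zero_rpow hp, Complex.ofReal_zero]

lemma sphere_ne0 {c ρ : ℝ} (hρc : ρ < c) {z : ℂ} (hz : z ∈ Metric.sphere (c : ℂ) ρ) {x : ℝ}
    (hx : x = 0 ∨ |x - c| < ρ) : z ≠ (x : ℂ) := by
  rcases hx with h | h
  · rw [h, Complex.ofReal_zero]
    exact ne_zero_of_mem hρc (Metric.sphere_subset_closedBall hz)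
  · exact Pool.Agent.Lib_helper19.QS.sphere_ne hz h

/-- `Tr M^p` as a contour integral; zero eigenvalues may be outside the circle -/
theorem trp0 {M : Matrix m m ℂ} (hM : M.IsHermitian) {p c ρ : ℝ} (hp : p ≠ 0) (hρ : 0 < ρ)
    (hρc : ρ < c) (hl : ∀ i, hM.eigenvalues i = 0 ∨ |hM.eigenvalues i - c| < ρ) :
    (∀ z ∈ Metric.sphere (c : ℂ) ρ, (z • (1 : Matrix m m ℂ) - M).det ≠ 0) ∧
    ((trF (fun x => x ^ p) M : ℝ) : ℂ) = (2 * π * Complex.I : ℂ)⁻¹ * ∮ z in C((c : ℂ), ρ),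
      z ^ (p : ℂ) * ((z • (1 : Matrix m m ℂ) - M)⁻¹).trace := by
  have hne : ∀ z ∈ Metric.sphere (c : ℂ) ρ, ∀ i, z ≠ (hM.eigenvalues i : ℂ) :=
    fun z hz i => sphere_ne0 hρc hz (hl i)
  have hC : ∀ i, CircleIntegrable
      (fun z : ℂ => z ^ (p : ℂ) * (z - (hM.eigenvalues i : ℂ))⁻¹) (c : ℂ) ρ ∧
      ((hM.eigenvalues i ^ p : ℝ) : ℂ) = (2 * π * Complex.I : ℂ)⁻¹ *
        ∮ z in C((c : ℂ), ρ), z ^ (p : ℂ) * (z - (hM.eigenvalues i : ℂ))⁻¹ := by
    intro i
    rcases hl i with h | h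
    · rw [h]
      exact cauchy_zero hp hρ hρc
    · exact Pool.Agent.Lib_helper19.QS.cauchy_one hρ hρc h
  refine ⟨fun z hz => (Pool.Agent.Lib_helper19.QS.resolvent_spec hM (hne z hz)).1, ?_⟩
  have e : (∮ z in C((c : ℂ), ρ), z ^ (p : ℂ) * ((z • (1 : Matrix m m ℂ) - M)⁻¹).trace) =
      ∮ z in C((c : ℂ), ρ), ∑ i, z ^ (p : ℂ) * (z - (hM.eigenvalues i : ℂ))⁻¹ := by
    refine circleIntegral.integral_congr hρ.le fun z hz => ?_
    rw [(Pool.Agent.Lib_helper19.QS.resolvent_spec hM (hne z hz)).2, Finset.mul_sum]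
  rw [e, circleIntegral.integral_fun_sum]
  · unfold trF
    rw [dif_pos hM, Finset.mul_sum]
    push_cast
    refine Finset.sum_congr rfl fun i _ => ?_
    have := (hC i).2
    exact this
  · intro i _
    exact (hC i).1

theorem XX_herm {P Q : Matrix m m ℂ} (hP : P.IsHermitian) (hQ : Q.IsHermitian) (be y : ι → ℝ) :
    (XX P Q be y).IsHermitian := by
  unfold Matrix.IsHermitian XX
  rw [Matrix.conjTranspose_add, Matrix.conjTranspose_kronecker, Matrix.conjTranspose_kronecker,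
    hP.eq, hQ.eq]
  congr 2
  · ext i j
    simp only [Matrix.conjTranspose_apply, phiM, Matrix.of_apply, Complex.star_def,
      Complex.conj_ofReal]
    rw [mul_comm]
  · rw [Matrix.diagonal_conjTranspose]
    congr 1
    ext j
    simp [Complex.conj_ofReal]

theorem vec_herm (u : m → ℂ) : (vecMulVec u (star u)).IsHermitian := by
  ext i j
  simp only [Matrix.conjTranspose_apply, Matrix.vecMulVec_apply, Pi.star_apply]
  rw [star_mul', star_star, mul_comm]

/-- `z - b uu*` is invertible off `0` and `b |u|²` -/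
theorem det_uu (u : m → ℂ) (b : ℝ) {z : ℂ} (hz : z ≠ 0)
    (hz2 : z ≠ ((b * ∑ a, ‖u a‖ ^ 2 : ℝ) : ℂ)) :
    (z • (1 : Matrix m m ℂ) - (b : ℂ) • vecMulVec u (star u)).det ≠ 0 := by
  intro h0
  obtain ⟨w, hw0, hw⟩ := Matrix.exists_mulVec_eq_zero_iff.mpr h0
  set t : ℂ := star u ⬝ᵥ w with ht
  have h1 : ∀ a, z * w a = (b : ℂ) * (u a * t) := by
    intro a
    have h2 := congrFun hw a
    rw [Matrix.sub_mulVec, Matrix.smul_mulVec, Matrix.smul_mulVec, Matrix.one_mulVec] at h2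
    simp only [Pi.sub_apply, Pi.smul_apply, Pi.zero_apply, smul_eq_mul] at h2
    have h3 : (vecMulVec u (star u) *ᵥ w) a = u a * t := by
      simp only [Matrix.mulVec, dotProduct, Matrix.vecMulVec_apply, ht, Finset.mul_sum]
      refine Finset.sum_congr rfl fun b _ => ?_
      ring
    rw [h3] at h2
    linear_combination h2
  have h4 : z * t = ((b * ∑ a, ‖u a‖ ^ 2 : ℝ) : ℂ) * t := by
    have h5 : z * t = ∑ a, star (u a) * (z * w a) := by
      rw [ht]
      simp only [dotProduct, Finset.mul_sum, Pi.star_apply]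
      refine Finset.sum_congr rfl fun a _ => ?_
      ring
    have h6 : ∀ a, star (u a) * u a = ((‖u a‖ ^ 2 : ℝ) : ℂ) := by
      intro a
      rw [Complex.star_def, Complex.conj_mul']
      push_cast
      ring
    rw [h5]
    simp only [h1]
    have h7 : ∀ a, star (u a) * ((b : ℂ) * (u a * t)) = (b : ℂ) * ((‖u a‖ ^ 2 : ℝ) : ℂ) * t := by
      intro a
      rw [← h6 a]
      ring
    simp only [h7]
    rw [← Finset.sum_mul, ← Finset.mul_sum]
    push_cast
    ring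
  have ht0 : t = 0 := by
    by_contra hne
    exact hz2 (mul_right_cancel₀ hne h4)
  apply hw0
  ext a
  have h8 := h1 a
  rw [ht0, mul_zero, mul_zero] at h8
  exact (mul_eq_zero.mp h8).resolve_left hz

/-- all hypotheses of DER for `Q = uu*`, for all large circles -/
theorem der_hyp_u (P : Matrix m m ℂ) (hP : P.PosDef) (u : m → ℂ) (be : ι → ℝ) (j0 : ι)
    (hb0 : be j0 = 0) (hb : ∀ j, j ≠ j0 → 0 < be j) (y : ι → ℝ) (hy : ∀ j, 0 < y j)
    {p : ℝ} (hp : p ≠ 0) :
    ∃ δ M : ℝ, 0 < δ ∧ ∀ c ρ : ℝ, 0 < ρ → ρ < c → c - ρ < δ → M < c + ρ →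
      (∀ z ∈ Metric.sphere (c : ℂ) ρ, ∀ j,
        (z • (1 : Matrix m m ℂ) - (be j : ℂ) • vecMulVec u (star u)).det ≠ 0) ∧
      ∀ᶠ y' in 𝓝 y,
        (∀ z ∈ Metric.sphere (c : ℂ) ρ,
          (z • (1 : Matrix (m × ι) (m × ι) ℂ) - XX P (vecMulVec u (star u)) be y').det ≠ 0) ∧
        ((hPQ p P (vecMulVec u (star u)) be y' : ℝ) : ℂ) =
          (2 * π * Complex.I : ℂ)⁻¹ * ∮ z in C((c : ℂ), ρ), z ^ (p : ℂ) *
            ((z • (1 : Matrix (m × ι) (m × ι) ℂ) - XX P (vecMulVec u (star u)) be y')⁻¹).trace := by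
  obtain ⟨δ, M, hδ, h⟩ := spec_u_circle P hP u be j0 hb0 hb y hy
  set U := ∑ a, ‖u a‖ ^ 2 with hU
  have hU0 : 0 ≤ U := Finset.sum_nonneg fun _ _ => by positivity
  have hbe0 : ∀ j, 0 ≤ be j := fun j => by
    by_cases hj : j = j0
    · rw [hj, hb0]
    · exact (hb j hj).le
  -- lower and upper bounds of the nonzero `β_j |u|²`
  obtain ⟨e, he, hle⟩ : ∃ e : ℝ, 0 < e ∧ ∀ j, be j * U = 0 ∨ e ≤ be j * U := by
    by_cases hS : (Finset.univ.filter (fun j : ι => be j * U ≠ 0)).Nonempty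
    · obtain ⟨j1, hj1, hmin⟩ := Finset.exists_min_image _ (fun j => be j * U) hS
      have hj1' : be j1 * U ≠ 0 := by simpa using hj1
      refine ⟨be j1 * U, lt_of_le_of_ne (mul_nonneg (hbe0 j1) hU0) (Ne.symm hj1'), fun j => ?_⟩
      by_cases hj : be j * U = 0
      · exact Or.inl hj
      · exact Or.inr (hmin j (by simpa using hj))
    · refine ⟨1, one_pos, fun j => Or.inl ?_⟩
      by_contra hj
      exact hS ⟨j, by simpa using hj⟩
  have hup : ∀ j, be j * U ≤ ∑ i, be i * U := fun j =>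
    Finset.single_le_sum (f := fun i => be i * U)
      (fun i _ => mul_nonneg (hbe0 i) hU0) (Finset.mem_univ j)
  refine ⟨min δ e, max M (∑ i, be i * U), lt_min hδ he, fun c ρ hρ hρc h1 h2 => ?_⟩
  have h1a : c - ρ < δ := h1.trans_le (min_le_left _ _)
  have h1b : c - ρ < e := h1.trans_le (min_le_right _ _)
  have h2a : M < c + ρ := (le_max_left _ _).trans_lt h2
  have h2b : ∑ i, be i * U < c + ρ := (le_max_right _ _).trans_lt h2
  refine ⟨fun z hz j => ?_, ?_⟩
  · refine det_uu u (be j) (ne_zero_of_mem hρc (Metric.sphere_subset_closedBall hz)) ?_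
    refine sphere_ne0 hρc hz ?_
    rcases hle j with h3 | h3
    · exact Or.inl h3
    · refine Or.inr ?_
      have := hup j
      rw [abs_lt]
      constructor <;> linarith
  · filter_upwards [h c ρ h1a h2a] with y' hy'
    have hX := XX_herm hP.isHermitian (vec_herm u) be y'
    exact trp0 hX hp hρ hρc (hy' hX)

end Pool.Agent.Lib_helper88.OPS
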