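import Pool.Agent.Lib_helper69.OPS.Defs

/-!
# MP_859019, one pure state: the spectrum of `P ⊗ φφᵀ + uu* ⊗ diag β`

All nonzero eigenvalues stay in a compact interval `[a, b] ⊂ (0, ∞)`, locally uniformly in `y`.
-/

set_option autoImplicit false
set_option linter.unusedSectionVars false

open scoped BigOperators ComplexOrder Kronecker MatrixOrder Topology Real
open Set Matrix Filter

namespace Pool.Agent.Lib_helper88.OPS

open Pool.Agent.OPS

variable {m ι : Type} [Fintype m] [DecidableEq m] [Fintype ι] [DecidableEq ι]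

/-- `s = ∑ φ_i v_i` -/
noncomputable def sv (y : ι → ℝ) (v : m × ι → ℂ) : m → ℂ :=
  fun b => ∑ i, ((√(y i) : ℝ) : ℂ) * v (b, i)

/-- `a_j = u* v_j` -/
noncomputable def av (u : m → ℂ) (v : m × ι → ℂ) : ι → ℂ :=
  fun j => ∑ b, star (u b) * v (b, j)

theorem XX_mulVec (P : Matrix m m ℂ) (u : m → ℂ) (be y : ι → ℝ) (v : m × ι → ℂ) (a : m)
    (j : ι) :
    (XX P (vecMulVec u (star u)) be y *ᵥ v) (a, j) =
      ((√(y j) : ℝ) : ℂ) * (P *ᵥ sv y v) a + (be j : ℂ) * (u a * av u v j) := by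
  have h : (XX P (vecMulVec u (star u)) be y *ᵥ v) (a, j) =
      (∑ b, ∑ i, P a b * (((√(y j) * √(y i) : ℝ) : ℂ)) * v (b, i)) +
      ∑ b, ∑ i, (u a * star (u b)) * (if j = i then (be j : ℂ) else 0) * v (b, i) := by
    rw [← Finset.sum_add_distrib]
    simp only [Matrix.mulVec, dotProduct, Fintype.sum_prod_type, XX, Matrix.add_apply,
      Matrix.kroneckerMap_apply, phiM, Matrix.of_apply, Matrix.vecMulVec_apply,
      Matrix.diagonal_apply, Pi.star_apply]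
    refine Finset.sum_congr rfl fun b _ => ?_
    rw [← Finset.sum_add_distrib]
    refine Finset.sum_congr rfl fun i _ => ?_
    ring
  rw [h]
  congr 1
  · simp only [Matrix.mulVec, dotProduct, sv, Finset.mul_sum]
    refine Finset.sum_congr rfl fun b _ => Finset.sum_congr rfl fun i _ => ?_
    push_cast
    ring
  · simp only [av, Finset.mul_sum]
    refine Finset.sum_congr rfl fun b _ => ?_
    rw [Finset.sum_eq_single j]
    · rw [if_pos rfl]; ring
    · intro i _ hi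
      rw [if_neg (Ne.symm hi)]; ring
    · intro hj; exact absurd (Finset.mem_univ j) hj

theorem quad (P : Matrix m m ℂ) (u : m → ℂ) (be y : ι → ℝ) (v : m × ι → ℂ) :
    star v ⬝ᵥ (XX P (vecMulVec u (star u)) be y *ᵥ v) =
      star (sv y v) ⬝ᵥ (P *ᵥ sv y v) + ∑ j, (be j : ℂ) * (((‖av u v j‖ ^ 2 : ℝ)) : ℂ) := by
  have h : star v ⬝ᵥ (XX P (vecMulVec u (star u)) be y *ᵥ v) =
      (∑ a, ∑ j, star (v (a, j)) * (((√(y j) : ℝ) : ℂ) * (P *ᵥ sv y v) a)) +
      ∑ j, ∑ a, star (v (a, j)) * ((be j : ℂ) * (u a * av u v j)) := by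
    rw [Finset.sum_comm (s := (Finset.univ : Finset ι)), ← Finset.sum_add_distrib]
    simp only [dotProduct, Fintype.sum_prod_type]
    refine Finset.sum_congr rfl fun a _ => ?_
    rw [← Finset.sum_add_distrib]
    refine Finset.sum_congr rfl fun j _ => ?_
    rw [XX_mulVec, Pi.star_apply]
    ring
  rw [h]
  congr 1
  · simp only [dotProduct]
    refine Finset.sum_congr rfl fun a _ => ?_
    rw [Pi.star_apply]
    simp only [sv, star_sum, Finset.sum_mul]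
    refine Finset.sum_congr rfl fun j _ => ?_
    rw [star_mul']
    have : star (((√(y j) : ℝ) : ℂ)) = ((√(y j) : ℝ) : ℂ) := by
      simp [Complex.conj_ofReal]
    rw [this]
    ring
  · refine Finset.sum_congr rfl fun j _ => ?_
    have h1 : ∑ a, star (v (a, j)) * ((be j : ℂ) * (u a * av u v j)) =
        (be j : ℂ) * ((∑ a, star (v (a, j)) * u a) * av u v j) := by
      rw [Finset.sum_mul, Finset.mul_sum]
      refine Finset.sum_congr rfl fun a _ => ?_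
      ring
    have h2 : (∑ a, star (v (a, j)) * u a) = star (av u v j) := by
      simp only [av, star_sum]
      refine Finset.sum_congr rfl fun a _ => ?_
      rw [star_mul', star_star]
      ring
    rw [h1, h2]
    congr 1
    rw [Complex.star_def, Complex.conj_mul']
    push_cast
    ring

/-- crude bound of a quadratic form -/
theorem quad_le {n : Type*} [Fintype n] (A : Matrix n n ℂ) (z : n → ℂ) :
    ‖star z ⬝ᵥ (A *ᵥ z)‖ ≤ (∑ i, ∑ j, ‖A i j‖) * ∑ k, ‖z k‖ ^ 2 := by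
  have hk : ∀ i, ‖z i‖ ^ 2 ≤ ∑ k, ‖z k‖ ^ 2 := fun i =>
    Finset.single_le_sum (f := fun k => ‖z k‖ ^ 2) (fun _ _ => by positivity)
      (Finset.mem_univ i)
  have h : star z ⬝ᵥ (A *ᵥ z) = ∑ i, ∑ j, star (z i) * (A i j * z j) := by
    simp only [dotProduct, Matrix.mulVec, Finset.mul_sum, Pi.star_apply]
  rw [h, Finset.sum_mul]
  refine (norm_sum_le _ _).trans (Finset.sum_le_sum fun i _ => ?_)
  rw [Finset.sum_mul]
  refine (norm_sum_le _ _).trans (Finset.sum_le_sum fun j _ => ?_)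
  rw [norm_mul, norm_mul, norm_star]
  have h1 := hk i
  have h2 := hk j
  have h3 : ‖z i‖ * ‖z j‖ ≤ ∑ k, ‖z k‖ ^ 2 := by nlinarith [sq_nonneg (‖z i‖ - ‖z j‖)]
  calc ‖z i‖ * (‖A i j‖ * ‖z j‖) = ‖A i j‖ * (‖z i‖ * ‖z j‖) := by ring
    _ ≤ ‖A i j‖ * ∑ k, ‖z k‖ ^ 2 := mul_le_mul_of_nonneg_left h3 (norm_nonneg _)

/-- `|Pw|² ≥ c w*Pw` -/
theorem posdef_lower {P : Matrix m m ℂ} (hP : P.PosDef) :
    ∃ c : ℝ, 0 < c ∧ ∀ w : m → ℂ,
      c * (star w ⬝ᵥ (P *ᵥ w)).re ≤ ∑ k, ‖(P *ᵥ w) k‖ ^ 2 := by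
  set C : ℝ := 1 + ∑ i, ∑ j, ‖P⁻¹ i j‖ with hC
  have hC0 : 0 < C := by
    have : 0 ≤ ∑ i, ∑ j, ‖P⁻¹ i j‖ :=
      Finset.sum_nonneg fun _ _ => Finset.sum_nonneg fun _ _ => norm_nonneg _
    linarith
  refine ⟨C⁻¹, inv_pos.mpr hC0, fun w => ?_⟩
  have hdet : IsUnit P.det := (Matrix.isUnit_iff_isUnit_det _).mp hP.isUnit
  set z := P *ᵥ w with hz
  have hw : w = P⁻¹ *ᵥ z := by
    rw [hz, Matrix.mulVec_mulVec, Matrix.nonsing_inv_mul _ hdet, Matrix.one_mulVec]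
  have hPi : (P⁻¹)ᴴ = P⁻¹ := by
    rw [Matrix.conjTranspose_nonsing_inv, hP.isHermitian.eq]
  have h1 : star w ⬝ᵥ z = star z ⬝ᵥ (P⁻¹ *ᵥ z) := by
    conv_lhs => rw [hw, Matrix.star_mulVec, hPi, ← Matrix.dotProduct_mulVec]
  have h2 := quad_le P⁻¹ z
  have h3 : (star w ⬝ᵥ z).re ≤ ‖star z ⬝ᵥ (P⁻¹ *ᵥ z)‖ := by
    rw [h1]; exact Complex.re_le_norm _
  have h4 : 0 ≤ ∑ k, ‖z k‖ ^ 2 := Finset.sum_nonneg fun _ _ => by positivity
  rw [inv_mul_le_iff₀ hC0]
  nlinarith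

/-- `|b|²/(1+κ) - |a|²/κ ≤ |a+b|²` -/
theorem norm_split (a b : ℂ) {k : ℝ} (hk : 0 < k) :
    ‖b‖ ^ 2 / (1 + k) - ‖a‖ ^ 2 / k ≤ ‖a + b‖ ^ 2 := by
  have h1 : ‖b‖ ≤ ‖a + b‖ + ‖a‖ := by
    have := norm_sub_le (a + b) a
    rwa [add_sub_cancel_left] at this
  have h2 : ‖b‖ ^ 2 ≤ (‖a + b‖ + ‖a‖) ^ 2 := pow_le_pow_left₀ (norm_nonneg _) h1 2
  set s := ‖a + b‖
  set t := ‖a‖
  have h3 : (s + t) ^ 2 ≤ (1 + k) * s ^ 2 + (1 + k) * (t ^ 2 / k) := by
    have h4 : 0 ≤ (k * s - t) ^ 2 / k := by positivity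
    have h5 : (k * s - t) ^ 2 / k = k * s ^ 2 - 2 * s * t + t ^ 2 / k := by
      field_simp
      ring
    have h6 : (1 + k) * (t ^ 2 / k) = t ^ 2 / k + t ^ 2 := by
      field_simp
    rw [h6]
    nlinarith
  have h7 : ‖b‖ ^ 2 / (1 + k) ≤ s ^ 2 + t ^ 2 / k := by
    rw [div_le_iff₀ (by linarith)]
    nlinarith
  linarith

/-- `|Xv|² ≥ (y_{j₀}/2)|Ps|² + ∑ β_j² |u|² |a_j|²/(1+k)` -/
theorem key (P : Matrix m m ℂ) (u : m → ℂ) (be y : ι → ℝ) (j0 : ι) (hb0 : be j0 = 0)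
    (hy : ∀ j, 0 ≤ y j) {k : ℝ} (hk : 0 < k) (hk2 : ∑ j, y j ≤ k * (y j0 / 2))
    (v : m × ι → ℂ) :
    y j0 / 2 * (∑ a, ‖(P *ᵥ sv y v) a‖ ^ 2) +
      ∑ j, be j ^ 2 * ‖av u v j‖ ^ 2 * (∑ a, ‖u a‖ ^ 2) / (1 + k) ≤
    ∑ p, ‖(XX P (vecMulVec u (star u)) be y *ᵥ v) p‖ ^ 2 := by
  set N := ∑ a, ‖(P *ᵥ sv y v) a‖ ^ 2 with hN
  set U := ∑ a, ‖u a‖ ^ 2 with hU
  have hN0 : 0 ≤ N := Finset.sum_nonneg fun _ _ => by positivity
  have hj : ∀ j, be j ^ 2 * ‖av u v j‖ ^ 2 * U / (1 + k) - y j * N / k +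
      (if j = j0 then y j0 * N else 0) ≤
      ∑ a, ‖(XX P (vecMulVec u (star u)) be y *ᵥ v) (a, j)‖ ^ 2 := by
    intro j
    by_cases h : j = j0
    · subst h
      rw [if_pos rfl, hb0]
      have e1 : ∀ a, (XX P (vecMulVec u (star u)) be y *ᵥ v) (a, j) =
          ((√(y j) : ℝ) : ℂ) * (P *ᵥ sv y v) a := by
        intro a
        rw [XX_mulVec, hb0]
        simp
      have e2 : ∑ a, ‖(XX P (vecMulVec u (star u)) be y *ᵥ v) (a, j)‖ ^ 2 = y j * N := by
        simp only [e1, norm_mul, mul_pow, Complex.norm_real, Real.norm_eq_abs, sq_abs,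
          Real.sq_sqrt (hy j)]
        rw [← Finset.mul_sum]
      rw [e2]
      have h1 : 0 ≤ y j * N / k := div_nonneg (mul_nonneg (hy j) hN0) hk.le
      have h2 : (0 : ℝ) ^ 2 * ‖av u v j‖ ^ 2 * U / (1 + k) = 0 := by ring
      rw [h2]
      linarith
    · rw [if_neg h, add_zero]
      have e1 : ∀ a, ‖(be j : ℂ) * (u a * av u v j)‖ ^ 2 / (1 + k) -
          ‖((√(y j) : ℝ) : ℂ) * (P *ᵥ sv y v) a‖ ^ 2 / k ≤
          ‖(XX P (vecMulVec u (star u)) be y *ᵥ v) (a, j)‖ ^ 2 := by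
        intro a
        rw [XX_mulVec]
        exact norm_split _ _ hk
      refine le_trans (le_of_eq ?_) (Finset.sum_le_sum fun a _ => e1 a)
      rw [Finset.sum_sub_distrib, ← Finset.sum_div, ← Finset.sum_div]
      simp only [norm_mul, mul_pow, Complex.norm_real, Real.norm_eq_abs, sq_abs,
        Real.sq_sqrt (hy j)]
      rw [← Finset.mul_sum, ← Finset.sum_mul, ← Finset.mul_sum]
      ring
  have hsum := Finset.sum_le_sum fun j (_ : j ∈ (Finset.univ : Finset ι)) => hj j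
  have e3 : ∑ j, ∑ a, ‖(XX P (vecMulVec u (star u)) be y *ᵥ v) (a, j)‖ ^ 2 =
      ∑ p, ‖(XX P (vecMulVec u (star u)) be y *ᵥ v) p‖ ^ 2 := by
    rw [Fintype.sum_prod_type, Finset.sum_comm]
  have e4 : ∑ j, y j * N / k = (∑ j, y j) * N / k := by
    rw [Finset.sum_mul, Finset.sum_div]
  rw [e3, Finset.sum_add_distrib, Finset.sum_sub_distrib, Finset.sum_ite_eq' Finset.univ j0,
    if_pos (Finset.mem_univ j0), e4] at hsum
  have h5 : (∑ j, y j) * N / k ≤ y j0 / 2 * N := by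
    rw [div_le_iff₀ hk]
    have := mul_le_mul_of_nonneg_right hk2 hN0
    nlinarith
  linarith

/-- `X² ≥ a X`, locally uniformly -/
theorem lower {P : Matrix m m ℂ} (hP : P.PosDef) (u : m → ℂ) (be : ι → ℝ) (j0 : ι)
    (hb0 : be j0 = 0) (hb : ∀ j, j ≠ j0 → 0 < be j) (y : ι → ℝ) (hy : ∀ j, 0 < y j) :
    ∃ a : ℝ, 0 < a ∧ ∀ᶠ y' in 𝓝 y, ∀ v : m × ι → ℂ,
      a * (star v ⬝ᵥ (XX P (vecMulVec u (star u)) be y' *ᵥ v)).re ≤
        ∑ p, ‖(XX P (vecMulVec u (star u)) be y' *ᵥ v) p‖ ^ 2 := by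
  obtain ⟨c, hc, hPc⟩ := posdef_lower hP
  set U := ∑ a, ‖u a‖ ^ 2 with hU
  have hU0 : 0 ≤ U := Finset.sum_nonneg fun _ _ => by positivity
  -- a lower bound of the positive `β_j`
  obtain ⟨e, he, hbe⟩ : ∃ e : ℝ, 0 < e ∧ ∀ j, j ≠ j0 → e ≤ be j := by
    by_cases hS : (Finset.univ.filter (fun j : ι => j ≠ j0)).Nonempty
    · obtain ⟨j1, hj1, hmin⟩ := Finset.exists_min_image _ be hS
      refine ⟨be j1, hb j1 (by simpa using hj1), fun j hj => hmin j (by simpa using hj)⟩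
    · refine ⟨1, one_pos, fun j hj => ?_⟩
      exact absurd ⟨j, by simpa using hj⟩ hS
  set Y : ℝ := ∑ j, y j + 1 with hY
  have hY0 : 0 < Y := by
    have : 0 ≤ ∑ j, y j := Finset.sum_nonneg fun j _ => (hy j).le
    linarith
  set k : ℝ := 4 * Y / y j0 with hk
  have hk0 : 0 < k := div_pos (by linarith) (hy j0)
  set q : ℝ := if u = 0 then 1 else U with hq
  have hq0 : 0 < q := by
    rw [hq]
    split_ifs with h
    · exact one_pos
    · obtain ⟨a, ha⟩ := Function.ne_iff.mp h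
      have : 0 < ‖u a‖ ^ 2 := by
        have : u a ≠ 0 := ha
        positivity
      exact lt_of_lt_of_le this (Finset.single_le_sum (f := fun a => ‖u a‖ ^ 2)
        (fun _ _ => by positivity) (Finset.mem_univ a))
  set a1 : ℝ := y j0 / 4 * c with ha1
  set a2 : ℝ := e * q / (1 + k) with ha2
  have ha10 : 0 < a1 := mul_pos (by linarith [hy j0]) hc
  have ha20 : 0 < a2 := div_pos (mul_pos he hq0) (by linarith)
  refine ⟨min a1 a2, lt_min ha10 ha20, ?_⟩
  have E1 : ∀ᶠ y' in 𝓝 y, ∀ j, 0 < y' j := by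
    rw [eventually_all]
    intro j
    exact (continuous_apply j).continuousAt.eventually (lt_mem_nhds (hy j))
  have E2 : ∀ᶠ y' in 𝓝 y, y j0 / 2 < y' j0 :=
    (continuous_apply j0).continuousAt.eventually (lt_mem_nhds (by linarith [hy j0]))
  have E3 : ∀ᶠ y' in 𝓝 y, ∑ j, y' j < Y := by
    have hcont : Continuous fun y' : ι → ℝ => ∑ j, y' j :=
      continuous_finsetSum _ fun j _ => continuous_apply j
    exact hcont.continuousAt.eventually (gt_mem_nhds (by rw [hY]; linarith))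
  filter_upwards [E1, E2, E3] with y' hy' h2 h3 v
  have hk2 : ∑ j, y' j ≤ k * (y' j0 / 2) := by
    have h4 : k * (y j0 / 4) = Y := by
      rw [hk]
      have := (hy j0).ne'
      field_simp
    have h5 : k * (y j0 / 4) ≤ k * (y' j0 / 2) :=
      mul_le_mul_of_nonneg_left (by linarith) hk0.le
    linarith
  have hkey := key P u be y' j0 hb0 (fun j => (hy' j).le) hk0 hk2 v
  refine le_trans ?_ hkey
  have hq' : (star v ⬝ᵥ (XX P (vecMulVec u (star u)) be y' *ᵥ v)).re =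
      (star (sv y' v) ⬝ᵥ (P *ᵥ sv y' v)).re + ∑ j, be j * ‖av u v j‖ ^ 2 := by
    rw [quad, Complex.add_re, Complex.re_sum]
    congr 1
    refine Finset.sum_congr rfl fun j _ => ?_
    rw [← Complex.ofReal_mul, Complex.ofReal_re]
  rw [hq', mul_add, Finset.mul_sum]
  have hr0 : 0 ≤ (star (sv y' v) ⬝ᵥ (P *ᵥ sv y' v)).re :=
    hP.posSemidef.re_dotProduct_nonneg _
  refine add_le_add ?_ (Finset.sum_le_sum fun j _ => ?_)
  · have hc1 := hPc (sv y' v)
    set r := (star (sv y' v) ⬝ᵥ (P *ᵥ sv y' v)).re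
    set N := ∑ k, ‖(P *ᵥ sv y' v) k‖ ^ 2
    have hN0 : 0 ≤ N := Finset.sum_nonneg fun _ _ => by positivity
    calc min a1 a2 * r ≤ a1 * r := mul_le_mul_of_nonneg_right (min_le_left _ _) hr0
      _ = y j0 / 4 * (c * r) := by rw [ha1]; ring
      _ ≤ y j0 / 4 * N := mul_le_mul_of_nonneg_left hc1 (by linarith [hy j0])
      _ ≤ y' j0 / 2 * N := mul_le_mul_of_nonneg_right (by linarith) hN0
  · by_cases hj : j = j0
    · subst hj
      rw [hb0]
      apply le_of_eq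
      ring
    · have hbj := hb j hj
      have hA : 0 ≤ be j * ‖av u v j‖ ^ 2 := by positivity
      have h6 : q * ‖av u v j‖ ^ 2 = U * ‖av u v j‖ ^ 2 := by
        rw [hq]
        split_ifs with hu
        · have : av u v j = 0 := by simp [av, hu]
          rw [this]
          simp
        · rfl
      calc min a1 a2 * (be j * ‖av u v j‖ ^ 2) ≤ a2 * (be j * ‖av u v j‖ ^ 2) :=
            mul_le_mul_of_nonneg_right (min_le_right _ _) hA
        _ = e * (be j * (q * ‖av u v j‖ ^ 2)) / (1 + k) := by rw [ha2]; ring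
        _ ≤ be j * (be j * (q * ‖av u v j‖ ^ 2)) / (1 + k) := by
            have h7 := hbe j hj
            have h8 : 0 ≤ be j * (q * ‖av u v j‖ ^ 2) := by positivity
            have h9 : (0 : ℝ) < 1 + k := by linarith
            exact div_le_div_of_nonneg_right (mul_le_mul_of_nonneg_right h7 h8) h9.le
        _ = be j ^ 2 * ‖av u v j‖ ^ 2 * U / (1 + k) := by rw [h6]; ring

theorem upper (P Q : Matrix m m ℂ) (be y : ι → ℝ) :
    ∃ b : ℝ, ∀ᶠ y' in 𝓝 y, ∑ p, ∑ q, ‖XX P Q be y' p q‖ ≤ b := by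
  have hcont : Continuous fun y' : ι → ℝ => ∑ p, ∑ q, ‖XX P Q be y' p q‖ := by
    refine continuous_finsetSum _ fun p _ => continuous_finsetSum _ fun q _ => ?_
    refine Continuous.norm ?_
    simp only [XX, Matrix.add_apply, Matrix.kroneckerMap_apply, phiM, Matrix.of_apply]
    refine Continuous.add ?_ continuous_const
    refine continuous_const.mul ?_
    refine Complex.continuous_ofReal.comp ?_
    exact (Real.continuous_sqrt.comp (continuous_apply _)).mul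
      (Real.continuous_sqrt.comp (continuous_apply _))
  refine ⟨∑ p, ∑ q, ‖XX P Q be y p q‖ + 1, ?_⟩
  have := hcont.continuousAt.eventually (gt_mem_nhds (lt_add_one (∑ p, ∑ q, ‖XX P Q be y p q‖)))
  filter_upwards [this] with y' h using h.le

/-- the nonzero eigenvalues of `P ⊗ φφᵀ + uu* ⊗ diag β` are in `[a, b]`, locally uniformly -/
theorem spec_u (P : Matrix m m ℂ) (hP : P.PosDef) (u : m → ℂ) (be : ι → ℝ) (j0 : ι)
    (hb0 : be j0 = 0) (hb : ∀ j, j ≠ j0 → 0 < be j) (y : ι → ℝ) (hy : ∀ j, 0 < y j) :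
    ∃ a b : ℝ, 0 < a ∧ a ≤ b ∧ ∀ᶠ y' in 𝓝 y,
      ∀ hX : (XX P (vecMulVec u (star u)) be y').IsHermitian, ∀ i,
        hX.eigenvalues i = 0 ∨ (a ≤ hX.eigenvalues i ∧ hX.eigenvalues i ≤ b) := by
  obtain ⟨a, ha, hlow⟩ := lower hP u be j0 hb0 hb y hy
  obtain ⟨b, hup⟩ := upper P (vecMulVec u (star u)) be y
  refine ⟨a, max a b, ha, le_max_left _ _, ?_⟩
  filter_upwards [hlow, hup] with y' hl hu' hX i
  set X := XX P (vecMulVec u (star u)) be y' with hXd
  set v : m × ι → ℂ := ⇑(hX.eigenvectorBasis i) with hv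
  set l := hX.eigenvalues i with hl'
  have hXv : X *ᵥ v = l • v := hX.mulVec_eigenvectorBasis i
  have hn : ∑ p, ‖v p‖ ^ 2 = 1 := by
    have h1 := hX.eigenvectorBasis.norm_eq_one i
    have h2 := EuclideanSpace.norm_sq_eq (hX.eigenvectorBasis i)
    rw [h1] at h2
    rw [← h2]
    norm_num
  have hvv : star v ⬝ᵥ v = 1 := by
    simp only [dotProduct, Pi.star_apply]
    have : ∀ p, star (v p) * v p = ((‖v p‖ ^ 2 : ℝ) : ℂ) := by
      intro p
      rw [Complex.star_def, Complex.conj_mul']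
      push_cast
      ring
    simp only [this]
    rw [← Complex.ofReal_sum, hn, Complex.ofReal_one]
  have hq : (star v ⬝ᵥ (X *ᵥ v)).re = l := by
    rw [hXv, dotProduct_smul, hvv]
    simp
  have hs : ∑ p, ‖(X *ᵥ v) p‖ ^ 2 = l ^ 2 := by
    rw [hXv]
    simp only [Pi.smul_apply, norm_smul, mul_pow, Real.norm_eq_abs, sq_abs]
    rw [← Finset.mul_sum, hn, mul_one]
  have h0 : 0 ≤ l := by
    rw [← hq, hXd, quad, Complex.add_re, Complex.re_sum]
    refine add_nonneg (hP.posSemidef.re_dotProduct_nonneg _) (Finset.sum_nonneg fun j _ => ?_)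
    rw [← Complex.ofReal_mul, Complex.ofReal_re]
    by_cases hj : j = j0
    · rw [hj, hb0]; simp
    · have := hb j hj
      positivity
  have h1 := hl v
  rw [hq, hs] at h1
  have h2 : l ≤ b := by
    have h3 := quad_le X v
    rw [hn, mul_one] at h3
    have h4 : (star v ⬝ᵥ (X *ᵥ v)).re ≤ ‖star v ⬝ᵥ (X *ᵥ v)‖ := Complex.re_le_norm _
    rw [hq] at h4
    linarith
  rcases h0.eq_or_lt with h5 | h5
  · exact Or.inl h5.symm
  · refine Or.inr ⟨?_, h2.trans (le_max_right _ _)⟩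
    have h6 : a * l ≤ l * l := by nlinarith
    exact le_of_mul_le_mul_right h6 h5

/-- the same for all large circles in the right half plane -/
theorem spec_u_circle (P : Matrix m m ℂ) (hP : P.PosDef) (u : m → ℂ) (be : ι → ℝ) (j0 : ι)
    (hb0 : be j0 = 0) (hb : ∀ j, j ≠ j0 → 0 < be j) (y : ι → ℝ) (hy : ∀ j, 0 < y j) :
    ∃ δ M : ℝ, 0 < δ ∧ ∀ c ρ : ℝ, c - ρ < δ → M < c + ρ → ∀ᶠ y' in 𝓝 y,
      ∀ hX : (XX P (vecMulVec u (star u)) be y').IsHermitian, ∀ i,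
        hX.eigenvalues i = 0 ∨ |hX.eigenvalues i - c| < ρ := by
  obtain ⟨a, b, ha, hab, h⟩ := spec_u P hP u be j0 hb0 hb y hy
  refine ⟨a, b, ha, fun c ρ h1 h2 => ?_⟩
  filter_upwards [h] with y' h' hX i
  rcases h' hX i with h0 | ⟨h3, h4⟩
  · exact Or.inl h0
  · refine Or.inr ?_
    rw [abs_lt]
    constructor <;> linarith

end Pool.Agent.Lib_helper88.OPS
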